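import Pool.Agent.Lib.TATE.RC.Spec

/-!
# PROJECT TATE, package RC, module Act: the action on integral forms
-/

set_option autoImplicit false

open HC HC.CC Topology

noncomputable section

namespace TATE.RC

namespace Act_aux

variable {T : AV} {γ : Cur T} {σ : ℂ ≃+* ℂ}

/-- `GR` is additive. -/
lemma gr_add {u u' v v' : T.V} (hu : GR γ σ u u') (hv : GR γ σ v v') :
    GR γ σ (u + v) (u' + v') := by
  obtain ⟨n, e, x, y, he, hx, h1, h2⟩ := hu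
  obtain ⟨n', e', x', y', he', hx', h1', h2'⟩ := hv
  refine ⟨n + n', Fin.append e e', Fin.append x x', Fin.append y y', ?_, ?_, ?_, ?_⟩
  · rw [Fin.sum_univ_add]
    simp only [Fin.append_left, Fin.append_right]
    rw [he, he', add_zero]
  · intro i
    refine Fin.addCases (fun a => ?_) (fun a => ?_) i
    · simp only [Fin.append_left]
      exact hx a
    · simp only [Fin.append_right]
      exact hx' a
  · have h := T.L.add_mem h1 h1'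
    rw [In, Fin.sum_univ_add]
    simp only [Fin.append_left, Fin.append_right]
    rw [add_sub_add_comm]
    exact h
  · have h := T.L.add_mem h2 h2'
    rw [In, Fin.sum_univ_add]
    simp only [Fin.append_left, Fin.append_right]
    rw [add_sub_add_comm]
    exact h

/-- `GR` and integral multiples. -/
lemma gr_zsmul {u u' : T.V} (hu : GR γ σ u u') (j : ℤ) : GR γ σ (j • u) (j • u') := by
  obtain ⟨n, e, x, y, he, hx, h1, h2⟩ := hu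
  refine ⟨n, fun k => j * e k, x, y, ?_, hx, ?_, ?_⟩
  · rw [← Finset.mul_sum, he, mul_zero]
  · have h := T.L.smul_mem j h1
    rw [In]
    simp only [mul_smul]
    rw [← Finset.smul_sum, ← smul_sub]
    exact h
  · have h := T.L.smul_mem j h2
    rw [In]
    simp only [mul_smul]
    rw [← Finset.smul_sum, ← smul_sub]
    exact h

/-- `v'` is good for `(v, n)`. -/
def Gd (γ : Cur T) (σ : ℂ ≃+* ℂ) (ℓ n : ℕ) (v v' : T.L) : Prop :=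
  GR γ σ (mu ((ℓ : ℂ) ^ n)⁻¹ (v : T.V)) (mu ((ℓ : ℂ) ^ n)⁻¹ (v' : T.V))

lemma gd_add {ℓ n : ℕ} {u u' v v' : T.L} (hu : Gd γ σ ℓ n u u') (hv : Gd γ σ ℓ n v v') :
    Gd γ σ ℓ n (u + v) (u' + v') := by
  have h := gr_add hu hv
  simp only [mu] at h
  simp only [Gd, mu, Submodule.coe_add, smul_add]
  exact h

lemma gd_sub {ℓ n : ℕ} {u u' v v' : T.L} (hu : Gd γ σ ℓ n u u') (hv : Gd γ σ ℓ n v v') :
    Gd γ σ ℓ n (u - v) (u' - v') := by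
  have h := gr_add hu (gr_zsmul hv (-1))
  simp only [mu, neg_smul, one_smul, ← sub_eq_add_neg] at h
  simp only [Gd, mu, Submodule.coe_sub, smul_sub]
  exact h

lemma lne {ℓ : ℕ} (hℓ : ℓ ≠ 0) (n : ℕ) : ((ℓ : ℂ) ^ n) ≠ 0 := pow_ne_zero _ (Nat.cast_ne_zero.mpr hℓ)

lemma pw_smul {ℓ : ℕ} (n : ℕ) (v : T.V) : ((ℓ ^ n : ℕ) : ℤ) • v = ((ℓ : ℂ) ^ n) • v := by
  rw [natCast_zsmul, ← Nat.cast_smul_eq_nsmul ℂ, Nat.cast_pow]

lemma gd_le {ℓ : ℕ} (hℓ : ℓ ≠ 0) {n j : ℕ} (hj : j ≤ n) {v v' : T.L} (h : Gd γ σ ℓ n v v') :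
    Gd γ σ ℓ j v v' := by
  have h1 := gr_zsmul h ((ℓ ^ (n - j) : ℕ) : ℤ)
  have h2 : ((ℓ : ℂ) ^ (n - j)) * ((ℓ : ℂ) ^ n)⁻¹ = ((ℓ : ℂ) ^ j)⁻¹ := by
    have h3 : (ℓ : ℂ) ^ n = (ℓ : ℂ) ^ (n - j) * (ℓ : ℂ) ^ j := by
      rw [← pow_add, Nat.sub_add_cancel hj]
    rw [h3, mul_inv, ← mul_assoc, mul_inv_cancel₀ (lne hℓ _), one_mul]
  simp only [mu, pw_smul, smul_smul, h2] at h1
  exact h1

lemma gd_ex (hin : ∀ v v', GR γ σ v v' → In T v → In T v')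
    (hex : ∀ v, Rt T v → ∃ v', GR γ σ v v') {ℓ : ℕ} (hℓ : ℓ ≠ 0) (n : ℕ) (v : T.L) :
    ∃ v' : T.L, Gd γ σ ℓ n v v' := by
  have h1 : ((ℓ : ℂ) ^ n) • (((ℓ : ℂ) ^ n)⁻¹ • (v : T.V)) = v := by
    rw [smul_smul, mul_inv_cancel₀ (lne hℓ n), one_smul]
  have hr : Rt T (((ℓ : ℂ) ^ n)⁻¹ • (v : T.V)) := by
    refine ⟨ℓ ^ n, pow_ne_zero _ hℓ, ?_⟩
    rw [← Nat.cast_smul_eq_nsmul ℂ, Nat.cast_pow, h1]
    exact v.2
  obtain ⟨u', hu'⟩ := hex _ hr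
  have h2 := gr_zsmul hu' ((ℓ ^ n : ℕ) : ℤ)
  rw [pw_smul, pw_smul, h1] at h2
  have h3 : In T (((ℓ : ℂ) ^ n) • u') := hin _ _ h2 v.2
  refine ⟨⟨((ℓ : ℂ) ^ n) • u', h3⟩, ?_⟩
  change GR γ σ (((ℓ : ℂ) ^ n)⁻¹ • (v : T.V)) (((ℓ : ℂ) ^ n)⁻¹ • (((ℓ : ℂ) ^ n) • u'))
  rw [smul_smul, inv_mul_cancel₀ (lne hℓ n), one_smul]
  exact hu'

lemma gd_zero (hin : ∀ v v', GR γ σ v v' → In T v → In T v') {ℓ : ℕ} [hp : Fact ℓ.Prime]
    (f : H1 T ℓ) (hf : ∀ v, ‖f v‖ ≤ 1) {n : ℕ} {d : T.L} (h : Gd γ σ ℓ n 0 d) :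
    ‖f d‖ ≤ ((ℓ : ℝ) ^ n)⁻¹ := by
  have hℓ : ℓ ≠ 0 := hp.out.ne_zero
  have h0 : In T (mu ((ℓ : ℂ) ^ n)⁻¹ ((0 : T.L) : T.V)) := by
    rw [mu, Submodule.coe_zero, smul_zero]
    exact T.L.zero_mem
  have h1 := hin _ _ h h0
  have h2 : d = (ℓ ^ n : ℕ) • (⟨mu ((ℓ : ℂ) ^ n)⁻¹ (d : T.V), h1⟩ : T.L) := by
    apply Subtype.ext
    rw [Submodule.coe_smul_of_tower]
    change (d : T.V) = (ℓ ^ n : ℕ) • (((ℓ : ℂ) ^ n)⁻¹ • (d : T.V))
    rw [← Nat.cast_smul_eq_nsmul ℂ, Nat.cast_pow, smul_smul, mul_inv_cancel₀ (lne hℓ n), one_smul]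
  rw [h2, map_nsmul, nsmul_eq_mul, norm_mul, Nat.cast_pow, norm_pow, Padic.norm_p, inv_pow]
  have h3 : (0 : ℝ) ≤ ((ℓ : ℝ) ^ n)⁻¹ := by positivity
  calc ((ℓ : ℝ) ^ n)⁻¹ * ‖f _‖ ≤ ((ℓ : ℝ) ^ n)⁻¹ * 1 := mul_le_mul_of_nonneg_left (hf _) h3
    _ = _ := mul_one _

lemma tend {ℓ : ℕ} (hℓ : 1 < ℓ) :
    Filter.Tendsto (fun n : ℕ => ((ℓ : ℝ) ^ n)⁻¹) Filter.atTop (𝓝 0) := by
  simp only [← inv_pow]
  refine tendsto_pow_atTop_nhds_zero_of_lt_one (by positivity) ?_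
  exact inv_lt_one_of_one_lt₀ (by exact_mod_cast hℓ)

end Act_aux

open Act_aux

/-- **Act**: the action on integral forms. -/
theorem rAct : S_Act := by
  intro T γ σ hin hex ℓ hp f hf
  have hℓ : ℓ ≠ 0 := hp.out.ne_zero
  have hℓ1 : 1 < ℓ := hp.out.one_lt
  choose R hR using fun (n : ℕ) (v : T.L) => gd_ex hin hex hℓ n v
  have hcmp : ∀ (j : ℕ) (v v' v'' : T.L), Gd γ σ ℓ j v v' → Gd γ σ ℓ j v v'' →
      ‖f v' - f v''‖ ≤ ((ℓ : ℝ) ^ j)⁻¹ := by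
    intro j v v' v'' h1 h2
    have h3 := gd_sub h1 h2
    rw [sub_self] at h3
    rw [← map_sub]
    exact gd_zero hin f hf h3
  have hC : ∀ v : T.L, CauchySeq fun n => f (R n v) := by
    intro v
    refine cauchySeq_of_le_tendsto_0' (fun n => ((ℓ : ℝ) ^ n)⁻¹) ?_ (tend hℓ1)
    intro n m hnm
    rw [dist_eq_norm]
    exact hcmp n v _ _ (hR n v) (gd_le hℓ hnm (hR m v))
  choose F hF using fun v : T.L => cauchySeq_tendsto_of_complete (hC v)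
  have hb : ∀ (j : ℕ) (v : T.L), ‖F v - f (R j v)‖ ≤ ((ℓ : ℝ) ^ j)⁻¹ := by
    intro j v
    refine le_of_tendsto (((hF v).sub_const _).norm) ?_
    filter_upwards [Filter.eventually_ge_atTop j] with n hn
    exact hcmp j v _ _ (gd_le hℓ hn (hR n v)) (hR j v)
  have hgood : ∀ (j : ℕ) (v v' : T.L), Gd γ σ ℓ j v v' → ‖F v - f v'‖ ≤ ((ℓ : ℝ) ^ j)⁻¹ := by
    intro j v v' h
    have h1 : F v - f v' = (F v - f (R j v)) + (f (R j v) - f v') := by ring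
    rw [h1]
    exact (Padic.nonarchimedean _ _).trans (max_le (hb j v) (hcmp j v _ _ (hR j v) h))
  have hadd : ∀ u v : T.L, F (u + v) = F u + F v := by
    intro u v
    have h1 : ∀ j : ℕ, ‖F (u + v) - (F u + F v)‖ ≤ ((ℓ : ℝ) ^ j)⁻¹ := by
      intro j
      have h2 := hgood j (u + v) _ (gd_add (hR j u) (hR j v))
      have h3 : F (u + v) - (F u + F v) =
          ((F (u + v) - f (R j u + R j v)) + -(F u - f (R j u))) + -(F v - f (R j v)) := by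
        rw [map_add]; ring
      rw [h3]
      refine (Padic.nonarchimedean _ _).trans (max_le ?_ (by rw [norm_neg]; exact hb j v))
      exact (Padic.nonarchimedean _ _).trans (max_le h2 (by rw [norm_neg]; exact hb j u))
    have h4 : ‖F (u + v) - (F u + F v)‖ ≤ 0 := ge_of_tendsto' (tend hℓ1) h1
    exact sub_eq_zero.mp (norm_le_zero_iff.mp h4)
  refine ⟨AddMonoidHom.mk' F hadd, hf, fun n v v' h => ?_⟩
  exact hgood n v v' h

end TATE.RC
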