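import Pool.Agent.Lib.TATE.RC.Spec

/-!
# PROJECT TATE, package RC: rational components
-/

set_option autoImplicit false

open HC HC.CC Topology

noncomputable section

namespace TATE.RC

namespace Cmp_aux

/-- The evaluation at a vector. -/
def evL {V : Type} [AddCommGroup V] [Module ℝ V] (v : V) : (V →ₗ[ℝ] ℂ) →ₗ[ℂ] ℂ where
  toFun a := a v
  map_add' _ _ := rfl
  map_smul' _ _ := rfl

/-- The multilinear map `a ↦ ∑_J (∏_i a_i (e (J i))) y_J`. -/
def mul {V : Type} [AddCommGroup V] [Module ℝ V] {ι : Type} [Fintype ι] {d : ℕ} (e : ι → V)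
    (y : (Fin d → ι) → ℂ) : MultilinearMap ℂ (fun _ : Fin d => (V →ₗ[ℝ] ℂ)) ℂ :=
  ∑ J : Fin d → ι, y J • (MultilinearMap.mkPiAlgebra ℂ (Fin d) ℂ).compLinearMap
    fun i => evL (e (J i))

theorem mul_apply {V : Type} [AddCommGroup V] [Module ℝ V] {ι : Type} [Fintype ι] {d : ℕ}
    (e : ι → V) (y : (Fin d → ι) → ℂ) (a : Fin d → (V →ₗ[ℝ] ℂ)) :
    mul e y a = ∑ J : Fin d → ι, y J * ∏ i, a i (e (J i)) := by
  unfold mul
  rw [MultilinearMap.sum_apply]
  apply Finset.sum_congr rfl
  intro J _
  rw [MultilinearMap.smul_apply, MultilinearMap.compLinearMap_apply,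
    MultilinearMap.mkPiAlgebra_apply, smul_eq_mul]
  rfl

/-- The alternating map. -/
def alt {V : Type} [AddCommGroup V] [Module ℝ V] {ι : Type} [Fintype ι] {d : ℕ} (e : ι → V)
    (y : (Fin d → ι) → ℂ)
    (hy : ∀ (J : Fin d → ι) (p q : Fin d), p ≠ q → y (J ∘ Equiv.swap p q) = -y J) :
    (V →ₗ[ℝ] ℂ) [⋀^Fin d]→ₗ[ℂ] ℂ :=
  { mul e y with
    map_eq_zero_of_eq' := by
      intro a p q hpq hne
      change mul e y a = 0
      have hsw : ∀ i, a (Equiv.swap p q i) = a i := by
        intro i
        by_cases h1 : i = p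
        · rw [h1, Equiv.swap_apply_left, hpq]
        · by_cases h2 : i = q
          · rw [h2, Equiv.swap_apply_right, hpq]
          · rw [Equiv.swap_apply_of_ne_of_ne h1 h2]
      have h1 : mul e y a = -mul e y a := by
        conv_lhs => rw [mul_apply]
        rw [mul_apply, ← Finset.sum_neg_distrib]
        let σ : (Fin d → ι) ≃ (Fin d → ι) := (Equiv.swap p q).arrowCongr (Equiv.refl ι)
        have hσ : ∀ J, σ J = J ∘ Equiv.swap p q := by
          intro J
          funext i
          simp [σ, Equiv.arrowCongr]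
        rw [← Equiv.sum_comp σ]
        apply Finset.sum_congr rfl
        intro J _
        rw [hσ, hy J p q hne]
        have h2 : ∏ i, a i (e ((J ∘ Equiv.swap p q) i)) = ∏ i, a i (e (J i)) := by
          rw [← Equiv.prod_comp (Equiv.swap p q)]
          apply Finset.prod_congr rfl
          intro i _
          rw [hsw, Function.comp_apply, Equiv.swap_apply_self]
        rw [h2, neg_mul]
      have h2 : (2 : ℂ) * mul e y a = 0 := by
        linear_combination h1
      exact (mul_eq_zero.mp h2).resolve_left two_ne_zero }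

theorem alt_apply {V : Type} [AddCommGroup V] [Module ℝ V] {ι : Type} [Fintype ι] {d : ℕ}
    (e : ι → V) (y : (Fin d → ι) → ℂ) (hy) (a : Fin d → (V →ₗ[ℝ] ℂ)) :
    alt e y hy a = ∑ J : Fin d → ι, y J * ∏ i, a i (e (J i)) := mul_apply e y a

/-- Expansion of an additive map in the dual basis. -/
theorem expand {L : Type} [AddCommGroup L] {ι : Type} [Fintype ι] [DecidableEq ι]
    (e : Module.Basis ι ℤ L) {F : Type} [Field F] (f : L →+ F) :
    f = ∑ j, f (e j) • ((Int.castAddHom F).comp (e.coord j).toAddMonoidHom) := by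
  ext v
  rw [AddMonoidHom.finset_sum_apply]
  have h1 : f v = ∑ j, (e.repr v j : F) * f (e j) := by
    conv_lhs => rw [← e.sum_repr v]
    rw [map_sum]
    apply Finset.sum_congr rfl
    intro j _
    rw [map_zsmul, zsmul_eq_mul]
  rw [h1]
  apply Finset.sum_congr rfl
  intro j _
  rw [AddMonoidHom.smul_apply, smul_eq_mul, mul_comm]
  rfl

end Cmp_aux

theorem rCmp : S_Cmp := by
  classical
  intro T ℓ _ d c
  have hfree : Module.Free ℤ T.L := ZLattice.module_free ℝ T.L
  have hfin : Module.Finite ℤ T.L := ZLattice.module_finite ℝ T.L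
  let ι := Module.Free.ChooseBasisIndex ℤ T.L
  let e : Module.Basis ι ℤ T.L := Module.Free.chooseBasis ℤ T.L
  let s : ι → H1 T ℓ := fun j => (Int.castAddHom ℚ_[ℓ]).comp (e.coord j).toAddMonoidHom
  let z : (Fin d → ι) → ℚ_[ℓ] := fun J => c fun i => s (J i)
  let E : Submodule ℚ ℚ_[ℓ] := Submodule.span ℚ (Set.range z)
  haveI : FiniteDimensional ℚ E := FiniteDimensional.span_of_finite ℚ (Set.finite_range z)
  let b := Module.finBasis ℚ E
  let zE : (Fin d → ι) → E := fun J => ⟨z J, Submodule.subset_span ⟨J, rfl⟩⟩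
  let y : Fin (Module.finrank ℚ E) → (Fin d → ι) → ℚ := fun k J => b.repr (zE J) k
  have hz : ∀ (J : Fin d → ι) (p q : Fin d), p ≠ q → zE (J ∘ Equiv.swap p q) = -zE J := by
    intro J p q hpq
    apply Subtype.ext
    change c (fun i => s ((J ∘ Equiv.swap p q) i)) = -c (fun i => s (J i))
    exact c.map_swap (fun i => s (J i)) hpq
  have hy : ∀ k (J : Fin d → ι) (p q : Fin d), p ≠ q → y k (J ∘ Equiv.swap p q) = -y k J := by
    intro k J p q hpq
    simp only [y]
    rw [hz J p q hpq, map_neg, Finsupp.neg_apply]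
  have hzy : ∀ J, z J = ∑ k, (b k : ℚ_[ℓ]) * (y k J : ℚ_[ℓ]) := by
    intro J
    have h1 := b.sum_repr (zE J)
    have h2 := congrArg Subtype.val h1
    rw [AddSubmonoidClass.coe_finset_sum] at h2
    rw [← show ((zE J : E) : ℚ_[ℓ]) = z J from rfl, ← h2]
    apply Finset.sum_congr rfl
    intro k _
    rw [Submodule.coe_smul, Rat.smul_def, mul_comm]
  refine ⟨Module.finrank ℚ E, fun k => (b k : ℚ_[ℓ]),
    fun k => Cmp_aux.alt (fun j => ((e j : T.L) : T.V)) (fun J => ((y k J : ℚ) : ℂ))
      (fun J p q hpq => by rw [hy k J p q hpq]; push_cast; ring), ?_, ?_⟩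
  · exact b.linearIndependent.map' E.subtype (Submodule.ker_subtype E)
  · intro a f haf
    choose Q hQa hQf using fun i (j : ι) => haf i (e j)
    refine ⟨fun k => ∑ J : Fin d → ι, y k J * ∏ i, Q i (J i), ?_, ?_⟩
    · intro k
      unfold itg
      rw [Cmp_aux.alt_apply]
      push_cast
      apply Finset.sum_congr rfl
      intro J _
      congr 1
      apply Finset.prod_congr rfl
      intro i _
      exact hQa i (J i)
    · have h1 : c f = ∑ J : Fin d → ι, (∏ i, f i (e (J i))) * z J := by
        have h2 : f = fun i => ∑ j, f i (e j) • s j := by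
          funext i
          exact Cmp_aux.expand e (f i)
        conv_lhs => rw [h2]
        have h3 := c.toMultilinearMap.map_sum (fun i (j : ι) => f i (e j) • s j)
        change c (fun i => ∑ j, f i (e j) • s j) = _ at h3
        rw [h3]
        apply Finset.sum_congr rfl
        intro J _
        have h4 := c.toMultilinearMap.map_smul_univ (fun i => f i (e (J i))) (fun i => s (J i))
        rw [h4, smul_eq_mul]
        rfl
      rw [h1]
      have h5 : ∀ J : Fin d → ι, (∏ i, f i (e (J i))) * z J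
          = ∑ k, (b k : ℚ_[ℓ]) * ((y k J : ℚ_[ℓ]) * ∏ i, (Q i (J i) : ℚ_[ℓ])) := by
        intro J
        rw [hzy J, Finset.mul_sum]
        apply Finset.sum_congr rfl
        intro k _
        have h6 : ∏ i, f i (e (J i)) = ∏ i, (Q i (J i) : ℚ_[ℓ]) :=
          Finset.prod_congr rfl fun i _ => hQf i (J i)
        rw [h6]
        ring
      rw [Finset.sum_congr rfl fun J _ => h5 J, Finset.sum_comm]
      apply Finset.sum_congr rfl
      intro k _
      rw [← Finset.mul_sum]
      push_cast
      rfl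

end TATE.RC
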