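import Pool.Agent.Lib.TATE.RC.Spec

/-!
# PROJECT TATE, package RC: the cyclotomic character (helper4)
-/

set_option autoImplicit false

open Topology HC HC.CC

noncomputable section

namespace TATE.RC

theorem rCh : S_Ch := by
  intro σ ℓ hℓ
  haveI : ∀ i, HasEnoughRootsOfUnity ℂ (ℓ ^ i) := fun i => inferInstance
  set c : ℤ_[ℓ] := (cyclotomicCharacter ℂ ℓ σ).val with hc
  have hspec : ∀ (n : ℕ) (ξ : ℂ), ξ ^ ℓ ^ n = 1 → σ ξ = ξ ^ (PadicInt.toZModPow n c).val :=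
    fun n ξ h => cyclotomicCharacter.spec ℓ σ ξ h
  have hnorm : ∀ n k : ℕ, ‖(c : ℚ_[ℓ]) - k‖ ≤ ((ℓ : ℝ) ^ n)⁻¹ ↔
      PadicInt.toZModPow n c = (k : ZMod (ℓ ^ n)) := by
    intro n k
    have h1 : ‖(c : ℚ_[ℓ]) - k‖ = ‖c - (k : ℤ_[ℓ])‖ := by
      rw [PadicInt.norm_def]
      push_cast
      rfl
    have h2 : ((ℓ : ℝ) ^ n)⁻¹ = (ℓ : ℝ) ^ (-n : ℤ) := by rw [zpow_neg, zpow_natCast]
    rw [h1, h2, PadicInt.norm_le_pow_iff_mem_span_pow, ← PadicInt.ker_toZModPow, RingHom.mem_ker,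
      map_sub, map_natCast, sub_eq_zero]
  haveI hne : ∀ n, NeZero (ℓ ^ n) := fun n => ⟨pow_ne_zero n hℓ.out.ne_zero⟩
  refine ⟨c, ?_, ?_⟩
  · intro n k hk ξ hξ
    have hk' : ‖(c : ℚ_[ℓ]) - k‖ ≤ ((ℓ : ℝ) ^ n)⁻¹ := by
      have h1 : ‖(c : ℚ_[ℓ]) - k‖ = ‖c - (k : ℤ_[ℓ])‖ := by
        rw [PadicInt.norm_def]
        push_cast
        rfl
      rw [h1]
      exact hk
    rw [hspec n ξ hξ, (hnorm n k).mp hk', ZMod.val_natCast]
    exact (pow_eq_pow_mod k hξ).symm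
  · intro n h
    have h1 : PadicInt.toZModPow n c = ((1 : ℕ) : ZMod (ℓ ^ n)) := by
      have hprim := Complex.isPrimitiveRoot_exp (ℓ ^ n) (pow_ne_zero n hℓ.out.ne_zero)
      set ξ := Complex.exp (2 * Real.pi * Complex.I / ((ℓ ^ n : ℕ) : ℂ))
      have h2 : ξ ^ (PadicInt.toZModPow n c).val = ξ ^ 1 := by
        rw [← hspec n ξ hprim.pow_eq_one, h ξ hprim.pow_eq_one, pow_one]
      have hξ0 : ξ ≠ 0 := Complex.exp_ne_zero _
      have h3 : ξ ^ (((PadicInt.toZModPow n c).val : ℤ) - 1) = 1 := by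
        rw [zpow_sub₀ hξ0, zpow_natCast, zpow_one, h2, pow_one, div_self hξ0]
      rw [hprim.zpow_eq_one_iff_dvd, ← ZMod.intCast_zmod_eq_zero_iff_dvd] at h3
      push_cast at h3
      rw [ZMod.natCast_zmod_val, sub_eq_zero] at h3
      rw [h3, Nat.cast_one]
    have h4 := (hnorm n 1).mpr h1
    rwa [Nat.cast_one] at h4

end TATE.RC
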