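import Pool.Agent.Lib.TATE.RC.Bas
import Pool.Agent.Lib.TATE.RC.Ch

/-!
# PROJECT TATE, package RC: the assembly (helper4)
-/

set_option autoImplicit false

open Topology HC HC.CC

noncomputable section

namespace TATE.RC

namespace Main_aux

/-- `IsPr` gives maps of rational lattices. -/
lemma rm_pr {T : AV} {N : ℕ} {J : Fin N → AV} {g : ∀ n, T.V → (J n).V} (hg : IsPr g) (n : Fin N) :
    RM T (J n) (g n) :=
  ⟨(hg.lin n).map_add, fun v hv => hg.rat v hv n⟩

lemma inj_pr {T : AV} {N : ℕ} {J : Fin N → AV} {g : ∀ n, T.V → (J n).V} (hg : IsPr g) {u v : T.V}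
    (h : ∀ n, g n u = g n v) : u = v :=
  hg.bij.1 (funext h)

lemma ex1_sum {T : AV} {ℓ : ℕ} [Fact ℓ.Prime] (F : H1 T ℓ) {ι : Type} (s : Finset ι)
    (v : ι → T.V) (h : ∀ i, Rt T (v i)) :
    Rt T (∑ i ∈ s, v i) ∧ ex1 F (∑ i ∈ s, v i) = ∑ i ∈ s, ex1 F (v i) := by
  classical
  induction s using Finset.induction_on with
  | empty =>
    refine ⟨?_, ?_⟩
    · rw [Finset.sum_empty]
      exact rt_in 0
    · rw [Finset.sum_empty, Finset.sum_empty]
      have := ex1_coe F 0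
      rw [map_zero] at this
      exact this
  | insert i s hi ih =>
    rw [Finset.sum_insert hi, Finset.sum_insert hi, ex1_add F (h i) ih.1, ih.2]
    refine ⟨?_, rfl⟩
    obtain ⟨k, hk, hku⟩ := h i
    obtain ⟨l, hl, hlv⟩ := ih.1
    refine ⟨k * l, mul_ne_zero hk hl, ?_⟩
    have h : (k * l) • (v i + ∑ i ∈ s, v i) = l • (k • v i) + k • (l • ∑ i ∈ s, v i) := by
      rw [smul_add, ← mul_smul, ← mul_smul, mul_comm l k]
    rw [h]
    exact T.L.add_mem (T.L.nsmul_mem hku l) (T.L.nsmul_mem hlv k)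

/-- The decomposition of `H¹(T)`. -/
lemma decomp {T : AV} {N : ℕ} {J : Fin N → AV} {g : ∀ n, T.V → (J n).V}
    (hg : IsPr g) (hLft : LfR g) {ℓ : ℕ} [Fact ℓ.Prime] (F : H1 T ℓ) :
    ∃ (a : Fin N → ℚ_[ℓ]) (f : ∀ n, H1 (J n) ℓ), (∀ n v, ‖f n v‖ ≤ 1) ∧
      F = ∑ n, a n • pbm (g n) (rm_pr hg n) (f n) := by
  classical
  have hsur : ∀ v : ∀ n, (J n).V, ∃ u, ∀ n, g n u = v n := fun v => by
    obtain ⟨u, hu⟩ := hg.bij.2 v
    exact ⟨u, fun n => congrFun hu n⟩
  choose G hG using hsur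
  have hGrt : ∀ v : ∀ n, (J n).V, (∀ n, Rt (J n) (v n)) → Rt T (G v) := by
    intro v hv
    obtain ⟨u, hu, huv⟩ := hLft v hv
    have : G v = u := inj_pr hg fun n => by rw [hG, huv]
    rw [this]
    exact hu
  have hL : ∀ n, RM (J n) T fun w => G (Pi.single n w) := by
    intro n
    refine ⟨fun u v => ?_, fun w hw => ?_⟩
    · refine inj_pr hg fun k => ?_
      rw [(rm_pr hg k).add, hG, hG, hG, Pi.single_add, Pi.add_apply]
    · refine hGrt _ fun k => ?_
      by_cases h : k = n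
      · subst h
        rw [Pi.single_eq_same]
        exact hw
      · rw [Pi.single_eq_of_ne h]
        exact rt_in 0
  choose a ha0 ha using fun n => exists_int (pbm (fun w => G (Pi.single n w)) (hL n) F)
  refine ⟨fun n => (a n)⁻¹, fun n => a n • pbm (fun w => G (Pi.single n w)) (hL n) F, ha, ?_⟩
  ext v
  have h1 : ∀ n, (a n)⁻¹ • pbm (g n) (rm_pr hg n)
      (a n • pbm (fun w => G (Pi.single n w)) (hL n) F) =
      pbm (g n) (rm_pr hg n) (pbm (fun w => G (Pi.single n w)) (hL n) F) := by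
    intro n
    rw [map_smul, smul_smul, inv_mul_cancel₀ (ha0 n), one_smul]
  simp only [h1]
  rw [AddMonoidHom.finset_sum_apply]
  have h2 : ∀ n, pbm (g n) (rm_pr hg n) (pbm (fun w => G (Pi.single n w)) (hL n) F) v =
      ex1 F (G (Pi.single n (g n v))) := by
    intro n
    rw [pbm_apply, ex1_pbm _ (hL n) F ((rm_pr hg n).rat _ (rt_in v))]
  simp only [h2]
  rw [← (ex1_sum F Finset.univ (fun n => G (Pi.single n (g n (v : T.V))))
    fun n => (hL n).rat _ ((rm_pr hg n).rat _ (rt_in v))).2]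
  have h3 : ∑ n, G (Pi.single n (g n (v : T.V))) = (v : T.V) := by
    refine inj_pr hg fun k => ?_
    have hlin := (hg.lin k)
    have h4 : g k (∑ n, G (Pi.single n (g n (v : T.V)))) =
        ∑ n, g k (G (Pi.single n (g n (v : T.V)))) :=
      map_sum (hlin.mk' (g k)) _ _
    rw [h4]
    simp only [hG]
    rw [Finset.sum_eq_single k]
    · rw [Pi.single_eq_same]
    · intro n _ hn
      exact Pi.single_eq_of_ne hn.symm _
    · intro h
      exact absurd (Finset.mem_univ k) h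
  rw [h3, ex1_coe]

/-- Bounds by `ℓ ^ (-j)` give limits. -/
lemma tendsto_of_le {ℓ : ℕ} [hℓ : Fact ℓ.Prime] {x : ℕ → ℚ_[ℓ]} {y : ℚ_[ℓ]}
    (h : ∀ j, ‖x j - y‖ ≤ ((ℓ : ℝ) ^ j)⁻¹) : Filter.Tendsto x Filter.atTop (𝓝 y) := by
  rw [tendsto_iff_norm_sub_tendsto_zero]
  refine squeeze_zero (fun _ => norm_nonneg _) h ?_
  have h1 : Filter.Tendsto (fun j : ℕ => ((ℓ : ℝ)⁻¹) ^ j) Filter.atTop (𝓝 0) :=
    tendsto_pow_atTop_nhds_zero_of_lt_one (inv_nonneg.mpr (Nat.cast_nonneg _))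
      (inv_lt_one_of_one_lt₀ (by exact_mod_cast hℓ.out.one_lt))
  simpa only [inv_pow] using h1

/-- The core: `c` is invariant under the maps which are approximated by the Galois group. -/
lemma core (hCh : S_Ch) (hAct : S_Act) {p : ℕ} {s : Fin p → ℂ} {T : AV} {N : ℕ}
    {J : Fin N → AV} {γ : ∀ n, Cur (J n)} {g : ∀ n, T.V → (J n).V} {A : Set ℂ} (hg : IsPr g)
    (hLft : LfR g) (hmod : ∀ n, IsMod s (γ n) A)
    (hTO : ∀ n, ∀ σ ∈ Fix s A, ∀ v, Rt (J n) v → ∃ v', GR (γ n) σ v v')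
    {ℓ : ℕ} [hℓ : Fact ℓ.Prime] {i : ℕ} {c : HL T ℓ (2 * i)}
    (hc : ∀ σ ∈ Fix s A, ∀ χ : ℤ_[ℓ], IsCh σ ℓ χ → ∀ (k : Fin (2 * i) → Fin N)
      (f f' : ∀ a, H1 (J (k a)) ℓ) (F F' : Fin (2 * i) → H1 T ℓ),
      (∀ a, IsAct (γ (k a)) σ ℓ (f a) (f' a) ∧ IsPb (g (k a)) (f a) (F a) ∧
        IsPb (g (k a)) (f' a) (F' a)) → c F' = (χ : ℚ_[ℓ]) ^ i * c F)
    {H : T.V →ₗ[ℝ] T.V} {φ : ∀ n, (J n).V →ₗ[ℝ] (J n).V} (hH : ∀ n v, g n (H v) = φ n (g n v))
    (hφ : ∀ j : ℕ, ∃ σ ∈ Fix s A, (∀ ξ : ℂ, ξ ^ ℓ ^ j = 1 → σ ξ = ξ) ∧ ∀ n, ∀ v : (J n).L,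
      GR (γ n) σ (mu ((ℓ : ℂ) ^ j)⁻¹ (v : (J n).V)) (mu ((ℓ : ℂ) ^ j)⁻¹ (φ n v))) :
    ∃ hR : RM T T H, ∀ F : Fin (2 * i) → H1 T ℓ, c (fun a => pbm H hR (F a)) = c F := by
  classical
  have hφL : ∀ n, ∀ v : (J n).L, φ n v ∈ (J n).L := by
    intro n v
    obtain ⟨σ, hσ, -, h⟩ := hφ 0
    have h1 := hmod n σ hσ _ _ (h n v)
    have h2 : ∀ w : (J n).V, mu ((ℓ : ℂ) ^ 0)⁻¹ w = w := fun w => by
      rw [pow_zero, inv_one]
      exact one_smul _ _
    rw [h2, h2] at h1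
    exact h1 v.2
  have hφR : ∀ n, RM (J n) (J n) (φ n) := by
    intro n
    refine ⟨map_add _, ?_⟩
    rintro v ⟨k, hk, hkv⟩
    refine ⟨k, hk, ?_⟩
    rw [← map_nsmul]
    exact hφL n ⟨_, hkv⟩
  have hR : RM T T H := by
    refine ⟨map_add _, fun v hv => ?_⟩
    obtain ⟨u, hu, huv⟩ := hLft (fun n => g n (H v)) fun n => by
      rw [hH]
      exact (hφR n).rat _ (hg.rat v hv n)
    have : H v = u := inj_pr hg fun n => (huv n).symm
    rw [this]
    exact hu
  refine ⟨hR, ?_⟩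
  -- special forms
  have key : ∀ (k : Fin (2 * i) → Fin N) (f : ∀ a, H1 (J (k a)) ℓ), (∀ a v, ‖f a v‖ ≤ 1) →
      c (fun a => pbm H hR (pbm (g (k a)) (rm_pr hg (k a)) (f a))) =
        c (fun a => pbm (g (k a)) (rm_pr hg (k a)) (f a)) := by
    intro k f hf
    choose σ hσ hroot hGR using hφ
    choose χ hχ hχ1 using fun j => hCh (σ j) ℓ
    choose f' hf' using fun (j : ℕ) (a : Fin (2 * i)) => hAct (J (k a)) (γ (k a)) (σ j)
      (hmod (k a) (σ j) (hσ j)) (hTO (k a) (σ j) (hσ j)) ℓ (f a) (hf a)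
    have h1 : ∀ j, c (fun a => pbm (g (k a)) (rm_pr hg (k a)) (f' j a)) =
        (χ j : ℚ_[ℓ]) ^ i * c (fun a => pbm (g (k a)) (rm_pr hg (k a)) (f a)) := by
      intro j
      exact hc (σ j) (hσ j) (χ j) (hχ j) k f (f' j) _ _ fun a =>
        ⟨hf' j a, isPb_pbm _ _ _, isPb_pbm _ _ _⟩
    have h2 : Filter.Tendsto (fun j => c (fun a => pbm (g (k a)) (rm_pr hg (k a)) (f' j a)))
        Filter.atTop (𝓝 (c (fun a => pbm H hR (pbm (g (k a)) (rm_pr hg (k a)) (f a))))) := by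
      refine tendsto_c c _ _ fun a v => ?_
      obtain ⟨m, hm, hmv⟩ := (rm_pr hg (k a)).rat _ (rt_in v)
      set w : (J (k a)).L := ⟨m • g (k a) v, hmv⟩ with hw
      have h3 : ∀ j, pbm (g (k a)) (rm_pr hg (k a)) (f' j a) v = f' j a w / (m : ℚ_[ℓ]) :=
        fun j => by rw [pbm_apply, ex1_eq _ hm hmv]
      have h4 : pbm H hR (pbm (g (k a)) (rm_pr hg (k a)) (f a)) v =
          f a ⟨φ (k a) w, hφL (k a) w⟩ / (m : ℚ_[ℓ]) := by
        rw [pbm_apply, ex1_pbm _ _ _ (hR.rat _ (rt_in v)), hH]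
        have h5 : m • φ (k a) (g (k a) v) ∈ (J (k a)).L := by
          rw [← map_nsmul]
          exact hφL (k a) w
        rw [ex1_eq _ hm h5]
        congr 2
        apply Subtype.ext
        exact (map_nsmul (φ (k a)) m _).symm
      simp only [h3, h4]
      refine Filter.Tendsto.div_const ?_ _
      refine tendsto_of_le fun j => ?_
      exact (hf' j a).2 j w ⟨φ (k a) w, hφL (k a) w⟩ (hGR j (k a) w)
    have h3 : Filter.Tendsto (fun j => c (fun a => pbm (g (k a)) (rm_pr hg (k a)) (f' j a)))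
        Filter.atTop (𝓝 (c (fun a => pbm (g (k a)) (rm_pr hg (k a)) (f a)))) := by
      simp only [h1]
      have h4 : Filter.Tendsto (fun j => (χ j : ℚ_[ℓ])) Filter.atTop (𝓝 1) :=
        tendsto_of_le fun j => hχ1 j j (hroot j)
      have h5 := (h4.pow i).mul_const (c (fun a => pbm (g (k a)) (rm_pr hg (k a)) (f a)))
      rwa [one_pow, one_mul] at h5
    exact tendsto_nhds_unique h2 h3
  -- general forms
  intro F
  choose A' f hf hF using fun a => decomp hg hLft (F a)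
  have h1 : (fun a => pbm H hR (F a)) = fun a => ∑ n, A' a n •
      pbm H hR (pbm (g n) (rm_pr hg n) (f a n)) := by
    funext a
    conv_lhs => rw [hF a, map_sum]
    simp only [map_smul]
  rw [h1, expand c A' (fun a n => pbm H hR (pbm (g n) (rm_pr hg n) (f a n)))]
  conv_rhs => rw [show F = fun a => ∑ n, A' a n • pbm (g n) (rm_pr hg n) (f a n) from funext hF]
  rw [expand c A' (fun a n => pbm (g n) (rm_pr hg n) (f a n))]
  refine Finset.sum_congr rfl fun k _ => ?_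
  rw [key k (fun a => f a (k a)) fun a => hf a (k a)]

/-- The `ℓ`-adic form with the same values. -/
lemma ratform {T : AV} (ℓ : ℕ) [Fact ℓ.Prime] (a : F1 T) (h : ∀ v : T.L, ∃ q : ℚ, ev a v = q) :
    ∃ f : H1 T ℓ, ∀ v : T.L, ∃ q : ℚ, ev a v = q ∧ f v = q := by
  choose q hq using h
  refine ⟨AddMonoidHom.mk' (fun v => ((q v : ℚ) : ℚ_[ℓ])) fun u v => ?_, fun v => ⟨q v, hq v, rfl⟩⟩
  have h1 : ((q (u + v) : ℚ) : ℂ) = ((q u + q v : ℚ) : ℂ) := by
    rw [Rat.cast_add, ← hq u, ← hq v, ← hq (u + v)]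
    exact map_add a _ _
  rw [Rat.cast_injective h1, Rat.cast_add]

end Main_aux

open Main_aux in
theorem rMain : S_Ch → S_Act → S_Cmp → StmtRC := by
  intro hCh hAct hCmp p s T N J γ g A hg hLft hmod hTO ℓ hℓ i c hc
  obtain ⟨K, x, C, hx, hC⟩ := hCmp T ℓ (2 * i) c
  refine ⟨K, x, C, hC, ?_, ?_⟩
  · intro k a ha
    choose f hf using fun i => ratform ℓ (a i) fun v => ha i v v.2
    obtain ⟨q, hq, -⟩ := hC a f hf
    exact ⟨q k, hq k⟩
  · intro H φ hH hφ k
    obtain ⟨hR, hinv⟩ := core hCh hAct hg hLft hmod hTO hc hH hφ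
    -- rational forms
    have h1 : ∀ a : Fin (2 * i) → F1 T, (∀ i (v : T.L), ∃ q : ℚ, ev (a i) v = q) →
        C k (fun i => a i ∘ₗ H) = C k a := by
      intro a ha
      choose f hf using fun i => ratform ℓ (a i) (ha i)
      obtain ⟨q, hq, hcq⟩ := hC a f hf
      obtain ⟨q', hq', hcq'⟩ := hC (fun i => a i ∘ₗ H) (fun i => pbm H hR (f i)) (by
        intro j v
        obtain ⟨m, hm, hmv⟩ := hR.rat v (rt_in v)
        obtain ⟨r, hr, hr'⟩ := hf j ⟨m • H v, hmv⟩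
        refine ⟨r / m, ?_, ?_⟩
        · change a j (H v) = _
          have h2 : (m : ℂ) * a j (H v) = r := by
            rw [← hr]
            change _ = a j (m • H v)
            rw [map_nsmul, nsmul_eq_mul]
          have hm0 : (m : ℂ) ≠ 0 := Nat.cast_ne_zero.mpr hm
          rw [Rat.cast_div, Rat.cast_natCast, ← h2, mul_div_cancel_left₀ _ hm0]
        · rw [pbm_apply, ex1_eq _ hm hmv, hr', Rat.cast_div, Rat.cast_natCast])
      rw [hinv f, hcq] at hcq'
      have h2 : ∑ k, (q k - q' k) • x k = 0 := by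
        have h3 : ∀ k, (q k - q' k) • x k = x k * q k - x k * q' k := by
          intro k
          rw [Rat.smul_def, Rat.cast_sub]
          ring
        simp only [h3]
        rw [Finset.sum_sub_distrib, hcq', sub_self]
      have h4 := (Fintype.linearIndependent_iff.mp hx) _ h2 k
      have h5 : q k = q' k := sub_eq_zero.mp h4
      have h6 := hq k
      have h7 := hq' k
      rw [h5] at h6
      change C k _ = _ at h6
      change C k _ = _ at h7
      rw [h6, h7]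
    -- all forms
    obtain ⟨n, ⟨e⟩⟩ := exists_bas T
    ext a
    change C k (fun i => a i ∘ₗ H) = C k a
    have h2 : (fun i => a i ∘ₗ H) = fun i => ∑ j, a i (e j : T.V) • (duR e j ∘ₗ H) := by
      funext i
      conv_lhs => rw [duR_sum e (a i)]
      refine LinearMap.ext fun v => ?_
      simp only [LinearMap.comp_apply, LinearMap.sum_apply, LinearMap.smul_apply]
    rw [h2, expand (C k) (fun i j => a i (e j : T.V)) (fun _ j => duR e j ∘ₗ H)]
    conv_rhs => rw [show a = fun i => ∑ j, a i (e j : T.V) • duR e j from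
      funext fun i => duR_sum e (a i)]
    rw [expand (C k) (fun i j => a i (e j : T.V)) (fun _ j => duR e j)]
    refine Finset.sum_congr rfl fun J' _ => ?_
    rw [h1 (fun i => duR e (J' i)) fun i v => ⟨(e.repr v (J' i) : ℤ), by
      rw [Rat.cast_intCast]
      exact duR_int e (J' i) v⟩]

end TATE.RC
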