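import Pool.Agent.Lib.TATE.RC.Ext

/-!
# PROJECT TATE, package RC: bases, expansions, limits, integrality (helper4)
-/

set_option autoImplicit false

open Topology HC HC.CC

noncomputable section

namespace TATE.RC

lemma exists_bas (T : AV) : ∃ (n : ℕ), Nonempty (Module.Basis (Fin n) ℤ T.L) := by
  haveI : Module.Finite ℤ T.L := ZLattice.module_finite ℝ T.L
  haveI : Module.Free ℤ T.L := ZLattice.module_free ℝ T.L
  exact ⟨Module.finrank ℤ T.L, ⟨Module.finBasis ℤ T.L⟩⟩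

lemma expand {R M N : Type*} [CommRing R] [AddCommGroup M] [Module R M] [AddCommGroup N]
    [Module R N] {d n : ℕ} (c : M [⋀^Fin d]→ₗ[R] N) (A : Fin d → Fin n → R)
    (G : Fin d → Fin n → M) :
    c (fun i => ∑ j, A i j • G i j) =
      ∑ J : Fin d → Fin n, (∏ i, A i (J i)) • c (fun i => G i (J i)) := by
  classical
  have h := c.toMultilinearMap.map_sum (fun i j => A i j • G i j)
  change c.toMultilinearMap (fun i => ∑ j, A i j • G i j) = _
  rw [h]
  refine Finset.sum_congr rfl fun J _ => ?_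
  exact c.toMultilinearMap.map_smul_univ (fun i => A i (J i)) (fun i => G i (J i))

section du

variable {T : AV} {n : ℕ} (e : Module.Basis (Fin n) ℤ T.L)

/-- The dual basis of `H1 T ℓ`. -/
def du (ℓ : ℕ) [Fact ℓ.Prime] (j : Fin n) : H1 T ℓ :=
  AddMonoidHom.mk' (fun v => ((e.repr v j : ℤ) : ℚ_[ℓ])) fun u v => by
    rw [map_add, Finsupp.add_apply, Int.cast_add]

lemma du_sum {ℓ : ℕ} [Fact ℓ.Prime] (F : H1 T ℓ) : F = ∑ j, F (e j) • du e ℓ j := by
  ext v
  rw [AddMonoidHom.finset_sum_apply]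
  conv_lhs => rw [← e.sum_repr v, map_sum]
  refine Finset.sum_congr rfl fun j _ => ?_
  rw [map_zsmul, zsmul_eq_mul]
  change _ = F (e j) * ((e.repr v j : ℤ) : ℚ_[ℓ])
  rw [mul_comm]

/-- The real basis. -/
def eR : Module.Basis (Fin n) ℝ T.V := e.ofZLatticeBasis ℝ T.L

/-- The dual basis of `F1 T`. -/
def duR (j : Fin n) : F1 T := Complex.ofRealLI.toLinearMap ∘ₗ (eR e).coord j

lemma duR_apply (j : Fin n) (v : T.V) : duR e j v = (((eR e).repr v j : ℝ) : ℂ) := rfl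

lemma duR_int (j : Fin n) (v : T.L) : duR e j (v : T.V) = ((e.repr v j : ℤ) : ℂ) := by
  rw [duR_apply, eR, Module.Basis.ofZLatticeBasis_repr_apply]
  norm_cast

lemma duR_sum (a : F1 T) : a = ∑ j, a (e j : T.V) • duR e j := by
  refine (eR e).ext fun k => ?_
  rw [LinearMap.sum_apply]
  have h1 : (eR e) k = (e k : T.V) := e.ofZLatticeBasis_apply ℝ T.L k
  rw [Finset.sum_eq_single k]
  · rw [LinearMap.smul_apply, duR_apply, Module.Basis.repr_self, Finsupp.single_eq_same,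
      Complex.ofReal_one, smul_eq_mul, mul_one, h1]
  · intro j _ hj
    rw [LinearMap.smul_apply, duR_apply, Module.Basis.repr_self, Finsupp.single_eq_of_ne hj,
      Complex.ofReal_zero, smul_zero]
  · intro h
    exact absurd (Finset.mem_univ k) h

end du

/-- Alternating forms on `H1` are continuous. -/
lemma tendsto_c {T : AV} {ℓ : ℕ} [Fact ℓ.Prime] {d : ℕ} (c : HL T ℓ d) (F : ℕ → Fin d → H1 T ℓ)
    (G : Fin d → H1 T ℓ)
    (h : ∀ i (v : T.L), Filter.Tendsto (fun j => F j i v) Filter.atTop (𝓝 (G i v))) :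
    Filter.Tendsto (fun j => c (F j)) Filter.atTop (𝓝 (c G)) := by
  obtain ⟨n, ⟨e⟩⟩ := exists_bas T
  have hF : ∀ G : Fin d → H1 T ℓ, c G = ∑ J : Fin d → Fin n, (∏ i, G i (e (J i))) •
      c (fun i => du e ℓ (J i)) := by
    intro G
    rw [← expand c (fun i j => G i (e j)) (fun _ j => du e ℓ j)]
    congr 1
    funext i
    exact du_sum e (G i)
  rw [hF G]
  have h1 : (fun j => c (F j)) = fun j => ∑ J : Fin d → Fin n, (∏ i, F j i (e (J i))) •
      c (fun i => du e ℓ (J i)) := funext fun j => hF (F j)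
  rw [h1]
  refine tendsto_finset_sum _ fun J _ => ?_
  refine Filter.Tendsto.smul_const ?_ _
  exact tendsto_finset_prod _ fun i _ => h i _

/-- Scaling to an integral form. -/
lemma exists_int {T : AV} {ℓ : ℕ} [hℓ : Fact ℓ.Prime] (F : H1 T ℓ) :
    ∃ a : ℚ_[ℓ], a ≠ 0 ∧ ∀ v, ‖(a • F) v‖ ≤ 1 := by
  obtain ⟨n, ⟨e⟩⟩ := exists_bas T
  have hℓ0 : (ℓ : ℚ_[ℓ]) ≠ 0 := Nat.cast_ne_zero.mpr hℓ.out.ne_zero
  have h1 : ∃ M : ℕ, ∀ j, ‖F (e j)‖ ≤ (ℓ : ℝ) ^ M := by
    have hlim : Filter.Tendsto (fun M : ℕ => (ℓ : ℝ) ^ M) Filter.atTop Filter.atTop :=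
      tendsto_pow_atTop_atTop_of_one_lt (by exact_mod_cast hℓ.out.one_lt)
    have := Filter.eventually_all.mpr fun j => hlim.eventually_ge_atTop ‖F (e j)‖
    exact this.exists
  obtain ⟨M, hM⟩ := h1
  refine ⟨(ℓ : ℚ_[ℓ]) ^ M, pow_ne_zero _ hℓ0, fun v => ?_⟩
  have h2 : ((ℓ : ℚ_[ℓ]) ^ M • F) v = ∑ j, ((e.repr v j : ℤ) : ℚ_[ℓ]) * ((ℓ : ℚ_[ℓ]) ^ M * F (e j)) := by
    change (ℓ : ℚ_[ℓ]) ^ M * F v = _
    conv_lhs => rw [← e.sum_repr v, map_sum, Finset.mul_sum]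
    refine Finset.sum_congr rfl fun j _ => ?_
    rw [map_zsmul, zsmul_eq_mul]
    ring
  rw [h2]
  refine IsUltrametricDist.norm_sum_le_of_forall_le_of_nonneg zero_le_one fun j _ => ?_
  rw [norm_mul]
  refine mul_le_one₀ (Padic.norm_int_le_one _) (norm_nonneg _) ?_
  rw [norm_mul, norm_pow, Padic.norm_p, inv_pow]
  have h3 : 0 < (ℓ : ℝ) ^ M := pow_pos (by exact_mod_cast hℓ.out.pos) M
  rw [inv_mul_le_iff₀ h3, mul_one]
  exact hM j

end TATE.RC
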