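import Pool.Agent.Lib.TATE.RC.Spec

/-!
# PROJECT TATE, package RC: extension of forms to the rational lattice, pull back (helper4)
-/

set_option autoImplicit false

open Topology HC HC.CC

noncomputable section

namespace TATE.RC

variable {T J J' : AV} {ℓ : ℕ} [Fact ℓ.Prime]

open Classical in
/-- The value of the extension of `F` to the rational lattice. -/
def ex1 (F : H1 T ℓ) (v : T.V) : ℚ_[ℓ] :=
  if h : Rt T v then F ⟨h.choose • v, h.choose_spec.2⟩ / (h.choose : ℚ_[ℓ]) else 0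

lemma ex1_eq (F : H1 T ℓ) {v : T.V} {k : ℕ} (hk : k ≠ 0) (h : k • v ∈ T.L) :
    ex1 F v = F ⟨k • v, h⟩ / (k : ℚ_[ℓ]) := by
  have hR : Rt T v := ⟨k, hk, h⟩
  rw [ex1, dif_pos hR]
  have hc := hR.choose_spec
  set c := hR.choose
  have hc0 : (c : ℚ_[ℓ]) ≠ 0 := Nat.cast_ne_zero.mpr hc.1
  have hk0 : (k : ℚ_[ℓ]) ≠ 0 := Nat.cast_ne_zero.mpr hk
  have h1 : k • (⟨c • v, hc.2⟩ : T.L) = c • (⟨k • v, h⟩ : T.L) := by
    apply Subtype.ext
    change k • (c • v) = c • (k • v)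
    rw [smul_comm]
  have h2 := congrArg F h1
  rw [map_nsmul, map_nsmul, nsmul_eq_mul, nsmul_eq_mul] at h2
  rw [div_eq_div_iff hc0 hk0, mul_comm, h2, mul_comm]

lemma ex1_not (F : H1 T ℓ) {v : T.V} (h : ¬ Rt T v) : ex1 F v = 0 := by
  rw [ex1, dif_neg h]

lemma ex1_coe (F : H1 T ℓ) (v : T.L) : ex1 F (v : T.V) = F v := by
  have h : (1 : ℕ) • (v : T.V) ∈ T.L := by rw [one_smul]; exact v.2
  rw [ex1_eq F one_ne_zero h, Nat.cast_one, div_one]
  congr 1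
  apply Subtype.ext
  exact one_smul _ _

lemma ex1_add (F : H1 T ℓ) {u v : T.V} (hu : Rt T u) (hv : Rt T v) :
    ex1 F (u + v) = ex1 F u + ex1 F v := by
  obtain ⟨k, hk, hku⟩ := hu
  obtain ⟨l, hl, hlv⟩ := hv
  have h1 : (k * l) • u ∈ T.L := by
    rw [mul_comm, mul_smul]
    exact T.L.nsmul_mem hku l
  have h2 : (k * l) • v ∈ T.L := by
    rw [mul_smul]
    exact T.L.nsmul_mem hlv k
  have h3 : (k * l) • (u + v) ∈ T.L := by
    rw [smul_add]
    exact T.L.add_mem h1 h2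
  have hkl := mul_ne_zero hk hl
  rw [ex1_eq F hkl h1, ex1_eq F hkl h2, ex1_eq F hkl h3, ← add_div, ← map_add]
  congr 2
  apply Subtype.ext
  exact smul_add _ _ _

lemma ex1_add_left (F G : H1 T ℓ) (v : T.V) : ex1 (F + G) v = ex1 F v + ex1 G v := by
  by_cases h : Rt T v
  · obtain ⟨k, hk, hkv⟩ := h
    rw [ex1_eq _ hk hkv, ex1_eq _ hk hkv, ex1_eq _ hk hkv, AddMonoidHom.add_apply, add_div]
  · rw [ex1_not _ h, ex1_not _ h, ex1_not _ h, add_zero]

lemma ex1_smul_left (c : ℚ_[ℓ]) (F : H1 T ℓ) (v : T.V) : ex1 (c • F) v = c * ex1 F v := by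
  by_cases h : Rt T v
  · obtain ⟨k, hk, hkv⟩ := h
    rw [ex1_eq _ hk hkv, ex1_eq _ hk hkv]
    change c • F _ / _ = _
    rw [smul_eq_mul, mul_div_assoc]
  · rw [ex1_not _ h, ex1_not _ h, mul_zero]

/-- A map of rational lattices. -/
structure RM (T J : AV) (g : T.V → J.V) : Prop where
  add : ∀ u v, g (u + v) = g u + g v
  rat : ∀ v, Rt T v → Rt J (g v)

lemma RM.zero {g : T.V → J.V} (hg : RM T J g) : g 0 = 0 := by
  have h := hg.add 0 0
  rw [add_zero] at h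
  exact left_eq_add.mp h

lemma RM.nsmul {g : T.V → J.V} (hg : RM T J g) (k : ℕ) (v : T.V) : g (k • v) = k • g v := by
  induction k with
  | zero => rw [zero_smul, zero_smul, hg.zero]
  | succ k ih => rw [add_smul, add_smul, one_smul, one_smul, hg.add, ih]

lemma rt_in (v : T.L) : Rt T (v : T.V) := ⟨1, one_ne_zero, by rw [one_smul]; exact v.2⟩

/-- The pull back. -/
def pbm (g : T.V → J.V) (hg : RM T J g) : H1 J ℓ →ₗ[ℚ_[ℓ]] H1 T ℓ where
  toFun f := AddMonoidHom.mk' (fun v => ex1 f (g v)) fun u v => by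
    rw [Submodule.coe_add, hg.add]
    exact ex1_add f (hg.rat _ (rt_in u)) (hg.rat _ (rt_in v))
  map_add' f f' := by
    ext v
    exact ex1_add_left f f' (g v)
  map_smul' c f := by
    ext v
    exact ex1_smul_left c f (g v)

lemma pbm_apply (g : T.V → J.V) (hg : RM T J g) (f : H1 J ℓ) (v : T.L) :
    pbm g hg f v = ex1 f (g v) := rfl

/-- The extension of the pull back. -/
lemma ex1_pbm (g : T.V → J.V) (hg : RM T J g) (f : H1 J ℓ) {v : T.V} (hv : Rt T v) :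
    ex1 (pbm g hg f) v = ex1 f (g v) := by
  obtain ⟨k, hk, hkv⟩ := hv
  have hk0 : (k : ℚ_[ℓ]) ≠ 0 := Nat.cast_ne_zero.mpr hk
  rw [ex1_eq _ hk hkv, pbm_apply]
  change ex1 f (g (k • v)) / _ = _
  rw [hg.nsmul]
  obtain ⟨l, hl, hlv⟩ := hg.rat v ⟨k, hk, hkv⟩
  have hl0 : (l : ℚ_[ℓ]) ≠ 0 := Nat.cast_ne_zero.mpr hl
  have h1 : l • (k • g v) ∈ J.L := by
    rw [smul_comm]
    exact J.L.nsmul_mem hlv k
  rw [ex1_eq f hl h1, ex1_eq f hl hlv]
  have h2 : (⟨l • (k • g v), h1⟩ : J.L) = k • (⟨l • g v, hlv⟩ : J.L) := by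
    apply Subtype.ext
    change l • (k • g v) = k • (l • g v)
    rw [smul_comm]
  rw [h2, map_nsmul, nsmul_eq_mul]
  field_simp

lemma isPb_pbm (g : T.V → J.V) (hg : RM T J g) (f : H1 J ℓ) : IsPb g f (pbm g hg f) := by
  intro k v w hw
  by_cases hk : k = 0
  · subst hk
    rw [zero_smul] at hw
    have h0 : w = 0 := Subtype.ext hw
    rw [h0, map_zero, Nat.cast_zero, zero_mul]
  · have hk0 : (k : ℚ_[ℓ]) ≠ 0 := Nat.cast_ne_zero.mpr hk
    have h : k • g v ∈ J.L := by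
      rw [← hw]
      exact w.2
    rw [pbm_apply, ex1_eq f hk h, mul_div_cancel₀ _ hk0]
    congr 1
    exact Subtype.ext hw.symm

lemma isPb_eq {g : T.V → J.V} (hg : RM T J g) {f : H1 J ℓ} {F : H1 T ℓ} (h : IsPb g f F) :
    F = pbm g hg f := by
  ext v
  obtain ⟨k, hk, hkv⟩ := hg.rat v (rt_in v)
  have hk0 : (k : ℚ_[ℓ]) ≠ 0 := Nat.cast_ne_zero.mpr hk
  rw [pbm_apply, ex1_eq f hk hkv, ← h k v ⟨k • g v, hkv⟩ rfl, mul_div_cancel_left₀ _ hk0]

/-- Functoriality. -/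
lemma pbm_comp (g : T.V → J.V) (hg : RM T J g) (g' : J.V → J'.V) (hg' : RM J J' g')
    (h : RM T J' fun v => g' (g v)) (f : H1 J' ℓ) : pbm g hg (pbm g' hg' f) = pbm _ h f := by
  ext v
  rw [pbm_apply, pbm_apply, ex1_pbm g' hg' f (hg.rat v (rt_in v))]

end TATE.RC
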