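import Pool.Agent.Lib.TATE.RC.Spec
import Pool.Agent.Lib.SE.Big.RatSp

/-!
# PROJECT TATE, package RC: lifting of rational vectors
-/

set_option autoImplicit false

open HC HC.CC SEJ SEB Topology

noncomputable section

namespace TATE.RC

namespace Lft_aux

/-- A vector with rational coordinates in one basis has rational coordinates in every basis of
vectors with rational coordinates. -/
theorem key {W ι κ : Type} [AddCommGroup W] [Module ℝ W] [Fintype ι] [Fintype κ]
    (b : Module.Basis ι ℝ W) (c : Module.Basis κ ℝ W)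
    (h : ∀ i j, ∃ q : ℚ, c.repr (b i) j = q) (w : W) (hw : ∀ j, ∃ q : ℚ, c.repr w j = q) :
    ∀ i, ∃ q : ℚ, b.repr w i = q := by
  classical
  let e : κ ≃ ι := c.indexEquiv b
  let c' : Module.Basis ι ℝ W := c.reindex e
  have h1 : ∀ j i, ∃ q : ℚ, c'.repr (b i) j = q := fun j i => by
    rw [Module.Basis.repr_reindex_apply]
    exact h i _
  have h2 : ∀ j, ∃ q : ℚ, c'.repr w j = q := fun j => by
    rw [Module.Basis.repr_reindex_apply]
    exact hw _
  choose Q hQ using h1
  choose y hy using h2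
  let f : ℚ →+* ℝ := algebraMap ℚ ℝ
  have hM : c'.toMatrix b = (Matrix.of Q).map f := by
    ext j i
    rw [Module.Basis.toMatrix_apply, hQ]
    rfl
  have hinv : b.toMatrix c' * c'.toMatrix b = 1 := Module.Basis.toMatrix_mul_toMatrix_flip b c'
  have hdet : (Matrix.of Q).det ≠ 0 := by
    intro h0
    have h3 := congrArg Matrix.det hinv
    rw [Matrix.det_mul, hM, Matrix.det_one] at h3
    have h4 : ((Matrix.of Q).map f).det = f (Matrix.of Q).det := (RingHom.map_det f _).symm
    rw [h4, h0, map_zero, mul_zero] at h3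
    exact zero_ne_one h3
  have hunit : IsUnit (Matrix.of Q).det := isUnit_iff_ne_zero.2 hdet
  let z : ι → ℚ := (Matrix.of Q)⁻¹.mulVec y
  have hz : (Matrix.of Q).mulVec z = y := by
    change (Matrix.of Q).mulVec ((Matrix.of Q)⁻¹.mulVec y) = y
    rw [Matrix.mulVec_mulVec, Matrix.mul_nonsing_inv _ hunit, Matrix.one_mulVec]
  have h5 : (c'.toMatrix b).mulVec (fun i => f (z i)) = fun i => f (y i) := by
    funext i
    rw [hM, ← hz]
    exact (RingHom.map_mulVec f _ _ _).symm
  have h6 : (c'.toMatrix b).mulVec (b.repr w) = fun i => f (y i) := by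
    rw [Module.Basis.toMatrix_mulVec_repr]
    funext i
    exact hy i
  have h7 : (⇑(b.repr w) : ι → ℝ) = fun i => f (z i) := by
    have h8 := congrArg ((b.toMatrix c').mulVec) (h6.trans h5.symm)
    rw [Matrix.mulVec_mulVec, Matrix.mulVec_mulVec, hinv, Matrix.one_mulVec,
      Matrix.one_mulVec] at h8
    exact h8
  intro i
  exact ⟨z i, congrFun h7 i⟩

/-- The rational vectors are the vectors with rational coordinates. -/
theorem rt_iff (T : AV) : ∃ (ι : Type) (_ : Fintype ι) (b : Module.Basis ι ℝ T.V),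
    (∀ i, Rt T (b i)) ∧ ∀ v, Rt T v ↔ ∀ i, ∃ q : ℚ, b.repr v i = q := by
  obtain ⟨ι, hι, b, h1, h2⟩ := RatSp_aux.lat_basis T
  refine ⟨ι, hι, b, fun i => ⟨1, one_ne_zero, by rw [one_smul]; exact h1 i⟩, fun v =>
    ⟨fun hv => RatSp_aux.co b h2 hv, fun hv => ?_⟩⟩
  choose q hq using hv
  have h3 : v = ∑ i, ((q i : ℝ)) • b i := by
    refine (b.sum_repr v).symm.trans ?_
    exact Finset.sum_congr rfl fun i _ => by rw [hq]
  rw [h3]
  exact RatSp_aux.ex_sum _ _ fun i _ => RatSp_aux.ex_smul (h1 i) (q i)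

end Lft_aux

open Lft_aux in
theorem rLft : S_Lft := by
  classical
  intro T N J g hg w hw
  let A : T.V ≃ₗ[ℂ] (∀ n, (J n).V) :=
    LinearEquiv.ofBijective (LinearMap.pi fun n => (hg.lin n).mk' (g n)) hg.bij
  have hA : ∀ v n, A v n = g n v := fun _ _ => rfl
  obtain ⟨ι, hι, b, hb, hb'⟩ := rt_iff T
  choose κ hκ c hc hc' using fun n => rt_iff (J n)
  refine ⟨A.symm w, ?_, ?_⟩
  · let C : Module.Basis (Σ n, κ n) ℝ (∀ n, (J n).V) := Pi.basis c
    let B : Module.Basis ι ℝ (∀ n, (J n).V) := b.map (A.restrictScalars ℝ)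
    have hC : ∀ x : (∀ n, (J n).V), (∀ n, Rt (J n) (x n)) → ∀ j, ∃ q : ℚ, C.repr x j = q := by
      intro x hx j
      obtain ⟨q, hq⟩ := (hc' j.1 (x j.1)).1 (hx j.1) j.2
      exact ⟨q, by rw [← hq]; exact Pi.basis_repr c x j⟩
    have hk := key B C (fun i j => hC _ (fun n => hg.rat _ (hb i) n) j) w (hC w hw)
    change Rt T (A.symm w)
    rw [hb']
    intro i
    obtain ⟨q, hq⟩ := hk i
    refine ⟨q, ?_⟩
    rw [← hq]
    rfl
  · intro n
    rw [← hA, A.apply_symm_apply]

end TATE.RC
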