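import Pool.Agent.Lib.TATE.Stmt

/-!
# PROJECT TATE, package RC (helper4): the `ℓ`-adic part

`StmtRC`: a Tate class `c` is `∑ x_k C_k`, `x_k ∈ ℚ_ℓ` linearly independent over `ℚ`, `C_k` rational classes,
and every `C_k` is invariant under every real linear map which is approximated `ℓ`-adically by elements of
the Galois group.

Every module: file `TATE/RC/Xyz.lean`, `theorem rXyz : S_Xyz`, namespace `TATE.RC` (before it
`open HC HC.CC Topology`), import `Pool.Agent.Lib.TATE.RC.Spec`. If the docstring says `From S_A` the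
theorem is `rXyz : S_A → S_Xyz`. Auxiliary lemmas in `namespace TATE.RC.Xyz_aux`.
-/

set_option autoImplicit false

open Topology HC HC.CC

noncomputable section

namespace TATE

/-- Rational vectors lift. -/
def LfR {T : AV} {N : ℕ} {J : Fin N → AV} (g : ∀ n, T.V → (J n).V) : Prop :=
  ∀ v : ∀ n, (J n).V, (∀ n, Rt (J n) (v n)) → ∃ u, Rt T u ∧ ∀ n, g n u = v n

/-- **RC**: THE `ℓ`-ADIC PART. `c` is a Tate class (the hypothesis is the one of `IsTate`, for the set `A`;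
`Fix s (A ∪ A') ⊆ Fix s A`, so `A` may be enlarged). -/
def StmtRC : Prop :=
  ∀ (p : ℕ) (s : Fin p → ℂ) (T : AV) (N : ℕ) (J : Fin N → AV) (γ : ∀ n, Cur (J n))
    (g : ∀ n, T.V → (J n).V) (A : Set ℂ), IsPr g → LfR g → (∀ n, IsMod s (γ n) A) →
    (∀ n, ∀ σ ∈ Fix s A, ∀ v, Rt (J n) v → ∃ v', GR (γ n) σ v v') →
    ∀ (ℓ : ℕ) [Fact ℓ.Prime] (i : ℕ) (c : HL T ℓ (2 * i)),
    (∀ σ ∈ Fix s A, ∀ χ : ℤ_[ℓ], IsCh σ ℓ χ → ∀ (k : Fin (2 * i) → Fin N)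
      (f f' : ∀ a, H1 (J (k a)) ℓ) (F F' : Fin (2 * i) → H1 T ℓ),
      (∀ a, IsAct (γ (k a)) σ ℓ (f a) (f' a) ∧ IsPb (g (k a)) (f a) (F a) ∧
        IsPb (g (k a)) (f' a) (F' a)) → c F' = (χ : ℚ_[ℓ]) ^ i * c F) →
    ∃ (K : ℕ) (x : Fin K → ℚ_[ℓ]) (C : Fin K → Hlg T (2 * i)),
      (∀ (a : Fin (2 * i) → F1 T) (f : Fin (2 * i) → H1 T ℓ),
        (∀ i (v : T.L), ∃ q : ℚ, ev (a i) v = q ∧ f i v = q) →
        ∃ q : Fin K → ℚ, (∀ k, itg (C k) a = q k) ∧ c f = ∑ k, x k * q k) ∧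
      (∀ (k : Fin K) (a : Fin (2 * i) → F1 T), (∀ i v, In T v → ∃ q : ℚ, ev (a i) v = q) →
        ∃ q : ℚ, itg (C k) a = q) ∧
      ∀ (H : T.V →ₗ[ℝ] T.V) (φ : ∀ n, (J n).V →ₗ[ℝ] (J n).V), (∀ n v, g n (H v) = φ n (g n v)) →
        (∀ j : ℕ, ∃ σ ∈ Fix s A, (∀ ξ : ℂ, ξ ^ ℓ ^ j = 1 → σ ξ = ξ) ∧ ∀ n, ∀ v : (J n).L,
          GR (γ n) σ (mu ((ℓ : ℂ) ^ j)⁻¹ (v : (J n).V)) (mu ((ℓ : ℂ) ^ j)⁻¹ (φ n v))) →
        ∀ k, psh H (C k) = C k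

namespace RC

/-- **Ch**: THE CYCLOTOMIC CHARACTER. PROOF. `χ = cyclotomicCharacter ℂ ℓ σ`; `cyclotomicCharacter.spec`,
`PadicInt.norm_le_pow_iff_mem_span_pow`, `PadicInt.ker_toZModPow`. Second part: a primitive root of unity. -/
def S_Ch : Prop := ∀ (σ : ℂ ≃+* ℂ) (ℓ : ℕ) [Fact ℓ.Prime], ∃ χ : ℤ_[ℓ], IsCh σ ℓ χ ∧
  ∀ n : ℕ, (∀ ξ : ℂ, ξ ^ ℓ ^ n = 1 → σ ξ = ξ) → ‖(χ : ℚ_[ℓ]) - 1‖ ≤ ((ℓ : ℝ) ^ n)⁻¹

/-- **Act**: THE ACTION ON INTEGRAL FORMS. PROOF. `GR γ σ` is additive: `GR u u'`, `GR v v'` give `GR (u + v) (u' + v')`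
(`Fin.append`), `GR (j • v) (j • v')`, `j ∈ ℤ` (coefficients `j * e`). For `v ∈ L`, `n : ℕ` there is `v' ∈ L` with
`GR (v / ℓ^n) (v' / ℓ^n)`: `v / ℓ^n` is in `Rt T`, so `GR (v / ℓ^n) u'`, `GR v (ℓ^n • u')`, and `v ∈ L` gives `ℓ^n • u' ∈ L`; put
`v' = ℓ^n • u'`. Two such `v'`, `v''`: `GR 0 ((v' - v'') / ℓ^n)`, so `v' - v'' ∈ ℓ^n L` and `‖f v' - f v''‖ ≤ ℓ^(-n)`. If `v'` is
good for `(v, n)` it is good for `(v, j)`, `j ≤ n` (multiply by `ℓ^(n - j)`). Choose `R n v`; `n ↦ f (R n v)` is a Cauchy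
sequence, `‖f (R n v) - f (R j v)‖ ≤ ℓ^(-j)` for `j ≤ n`; `f' v` is its limit, `‖f' v - f (R j v)‖ ≤ ℓ^(-j)`, so
`‖f' v - f v'‖ ≤ ℓ^(-j)` for all `v'` with `GR (v / ℓ^j) (v' / ℓ^j)` (ultrametric). Additive: `R j u + R j v` is good for
`u + v`, so `‖f' (u + v) - f' u - f' v‖ ≤ ℓ^(-j)` for all `j`. `IsAct` (first part): `f` is integral. -/
def S_Act : Prop := ∀ (T : AV) (γ : Cur T) (σ : ℂ ≃+* ℂ),
  (∀ v v', GR γ σ v v' → In T v → In T v') → (∀ v, Rt T v → ∃ v', GR γ σ v v') →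
  ∀ (ℓ : ℕ) [Fact ℓ.Prime] (f : H1 T ℓ), (∀ v, ‖f v‖ ≤ 1) → ∃ f' : H1 T ℓ, IsAct γ σ ℓ f f'

/-- **Cmp**: RATIONAL COMPONENTS. PROOF. `e_j`, `j ∈ ι`, a basis of `T.L` over `ℤ` (a basis of `T.V` over `ℝ`:
`Module.Basis.ofZLatticeBasis`), `e*_j : H1 T ℓ` the dual basis, `f = ∑_j f(e_j) • e*_j` for `f : H1 T ℓ`. So
`c f = ∑_(J : Fin d → ι) (∏_i f_i (e_(J i))) * c (e* ∘ J)` (`MultilinearMap.map_sum`, `map_smul_univ`). The `ℚ`-span `E ⊆ ℚ_ℓ` of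
the finitely many numbers `c (e* ∘ J)` has a finite basis `x_k`; `c (e* ∘ J) = ∑_k x_k * y_k J`, `y_k J : ℚ`; `y_k` is
alternating in `J`: `y_k (J ∘ swap p q) = -y_k J`, `p ≠ q` (uniqueness of coordinates). Define
`C_k a = ∑_J (∏_i a_i (e_(J i))) * y_k J`: multilinear; alternating: if `a_p = a_q`, `p ≠ q`, the substitution
`J ↦ J ∘ swap p q` gives `C_k a = -C_k a`. The formula for `c f`: if `a_i (e_j) = q_ij = f_i (e_j)` then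
`C_k a = ∑_J (∏_i q_(i, J i)) * y_k J` is rational and `c f = ∑_k x_k * C_k a`. -/
def S_Cmp : Prop := ∀ (T : AV) (ℓ : ℕ) [Fact ℓ.Prime] (d : ℕ) (c : HL T ℓ d),
  ∃ (K : ℕ) (x : Fin K → ℚ_[ℓ]) (C : Fin K → Hlg T d), LinearIndependent ℚ x ∧
    ∀ (a : Fin d → F1 T) (f : Fin d → H1 T ℓ),
      (∀ i (v : T.L), ∃ q : ℚ, ev (a i) v = q ∧ f i v = q) →
      ∃ q : Fin K → ℚ, (∀ k, itg (C k) a = q k) ∧ c f = ∑ k, x k * q k

/-- **Lft**: LIFTING OF RATIONAL VECTORS. PROOF. `g = (g_n) : T.V → ∏ (J n).V` is a `ℂ`-linear bijection (`IsPr.lin`,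
`IsPr.bij`). `e_j` a `ℤ`-basis of `T.L`, `j ∈ ι`, `b` a `ℤ`-basis of `∏ (J n).L` (the union of bases of the `(J n).L`: index
set `Σ n, ι_n`); they are bases over `ℝ` of `T.V` and of `∏ (J n).V` (`Module.Basis.ofZLatticeBasis`, `Pi.basis`), so the
index sets have the same cardinality. The vectors `g e_j` have rational coordinates with respect to `b` (`IsPr.rat`) and
are independent over `ℝ`: the coordinate vectors in `Σ n, ι_n → ℚ` are independent over `ℚ`, hence a basis; so every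
vector with rational coordinates with respect to `b` is a rational combination of the `g e_j`. -/
def S_Lft : Prop := ∀ (T : AV) (N : ℕ) (J : Fin N → AV) (g : ∀ n, T.V → (J n).V), IsPr g →
  ∀ v : ∀ n, (J n).V, (∀ n, Rt (J n) (v n)) → ∃ u, Rt T u ∧ ∀ n, g n u = v n

end RC

end TATE
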